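import Mathlib

set_option autoImplicit false

namespace Pool.Agent.H.MP_dec67b_co

open Finset

def ph (x : ZMod 2) : ZMod 4 := (x.val : ZMod 4)
def db (x : ZMod 2) : ZMod 4 := 2 * ph x
def cs (s : ZMod 4) : ℤ := if s = 0 then 1 else if s = 2 then -1 else 0
def sn (s : ZMod 4) : ℤ := if s = 1 then 1 else if s = 3 then -1 else 0
def ep (x : ZMod 2) : ℤ := if x = 0 then 1 else -1

lemma ph_add (x y : ZMod 2) : ph (x + y) = ph x + ph y + 2 * (ph x * ph y) := by
  revert x y; decide
lemma db_add (x y : ZMod 2) : db (x + y) = db x + db y := by revert x y; decide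
lemma db_zero : db 0 = 0 := by decide
lemma db_sub (x y : ZMod 2) : db (x - y) = db x - db y := by revert x y; decide
lemma db_mul (x y z : ZMod 2) : db (x * y * z) = 2 * (ph x * ph y * ph z) := by
  revert x y z; decide
lemma cs_sub (s t : ZMod 4) : cs s * cs t + sn s * sn t = cs (s - t) := by revert s t; decide
lemma cs_db (s : ZMod 4) (x : ZMod 2) : cs (s + db x) = cs s * ep x := by revert s x; decide
lemma ep_add (x y : ZMod 2) : ep (x + y) = ep x * ep y := by revert x y; decide
lemma ep_ne (x : ZMod 2) (h : x ≠ 0) : ep x = -1 := by simp [ep, h]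
lemma cs_zero : cs 0 = 1 := by decide
lemma four : (4 : ZMod 4) = 0 := by decide

def dbH : ZMod 2 →+ ZMod 4 where
  toFun := db
  map_zero' := db_zero
  map_add' := db_add

variable {m : ℕ}

abbrev V (m : ℕ) := Fin m → ZMod 2

def be (R : Fin m → Fin m → ZMod 2) (u v : Fin m → ZMod 4) : ZMod 4 :=
  ∑ i, ∑ j, u i * ph (R i j) * v j
def bl (R : Fin m → Fin m → ZMod 2) (x y : V m) : ZMod 2 := ∑ i, ∑ j, x i * R i j * y j
def qf (R : Fin m → Fin m → ZMod 2) (x : V m) : ZMod 4 := be R (fun i => ph (x i)) (fun i => ph (x i))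

lemma be_symm (R : Fin m → Fin m → ZMod 2) (hR : ∀ i j, R i j = R j i) (u v : Fin m → ZMod 4) :
    be R u v = be R v u := by
  unfold be
  rw [Finset.sum_comm]
  refine Finset.sum_congr rfl fun i _ => Finset.sum_congr rfl fun j _ => ?_
  rw [hR j i]; ring

lemma be_exp (R : Fin m → Fin m → ZMod 2) (u v w : Fin m → ZMod 4) :
    be R (fun i => u i + v i + 2 * w i) (fun i => u i + v i + 2 * w i) =
      be R u u + be R v v + (be R u v + be R v u) + 2 * (be R u w + be R w u)
        + 2 * (be R v w + be R w v) + 4 * be R w w := by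
  unfold be
  simp only [Finset.mul_sum, mul_add, ← Finset.sum_add_distrib]
  refine Finset.sum_congr rfl fun i _ => Finset.sum_congr rfl fun j _ => ?_
  ring

lemma db_bl (R : Fin m → Fin m → ZMod 2) (x y : V m) :
    db (bl R x y) = 2 * be R (fun i => ph (x i)) (fun i => ph (y i)) := by
  have : db (bl R x y) = dbH (bl R x y) := rfl
  rw [this]
  unfold bl be
  simp only [map_sum, Finset.mul_sum]
  refine Finset.sum_congr rfl fun i _ => Finset.sum_congr rfl fun j _ => ?_
  exact db_mul _ _ _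

lemma qf_add (R : Fin m → Fin m → ZMod 2) (hR : ∀ i j, R i j = R j i) (x y : V m) :
    qf R (x + y) = qf R x + qf R y + db (bl R x y) := by
  unfold qf
  have h1 : (fun i => ph ((x + y) i)) = fun i => ph (x i) + ph (y i) + 2 * (ph (x i) * ph (y i)) := by
    funext i; exact ph_add _ _
  rw [h1, be_exp, db_bl]
  rw [be_symm R hR (fun i => ph (y i)) (fun i => ph (x i)),
    be_symm R hR (fun i => ph (x i) * ph (y i)) (fun i => ph (x i)),
    be_symm R hR (fun i => ph (x i) * ph (y i)) (fun i => ph (y i))]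
  have h4 := four
  linear_combination (be R (fun i => ph (x i)) (fun i => ph (x i) * ph (y i)) +
    be R (fun i => ph (y i)) (fun i => ph (x i) * ph (y i)) +
    be R (fun i => ph (x i) * ph (y i)) (fun i => ph (x i) * ph (y i))) * h4

lemma qf_zero (R : Fin m → Fin m → ZMod 2) : qf R 0 = 0 := by
  have : ph 0 = 0 := by decide
  simp [qf, be, this]

lemma bl_add (R : Fin m → Fin m → ZMod 2) (x x' y : V m) :
    bl R (x + x') y = bl R x y + bl R x' y := by
  unfold bl
  simp only [← Finset.sum_add_distrib, Pi.add_apply]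
  refine Finset.sum_congr rfl fun i _ => Finset.sum_congr rfl fun j _ => ?_
  ring

lemma bl_zero (R : Fin m → Fin m → ZMod 2) (x : V m) : bl R x 0 = 0 := by simp [bl]

lemma charsum (l : V m → ZMod 2) (hl : ∀ x y, l (x + y) = l x + l y) (y0 : V m) (h0 : l y0 ≠ 0) :
    ∑ y, ep (l y) = 0 := by
  have h := Equiv.sum_comp (Equiv.addRight y0) (fun y => ep (l y))
  simp only [Equiv.coe_addRight, hl, ep_add, ep_ne _ h0, mul_neg, mul_one,
    Finset.sum_neg_distrib] at h
  linarith

lemma cardV : Fintype.card (V m) = 2 ^ m := by simp [V, ZMod.card]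

lemma gauss (G : V m → ZMod 4) (B : V m → V m → ZMod 2)
    (hG : ∀ y z, G (y + z) = G y + G z + db (B y z)) (hG0 : G 0 = 0)
    (hB : ∀ x y z, B (x + y) z = B x z + B y z) (hB0 : ∀ y, B y 0 = 0)
    (hnd : ∀ z, z ≠ 0 → ∃ y, B y z ≠ 0) :
    (∑ x, cs (G x)) ^ 2 + (∑ x, sn (G x)) ^ 2 = 2 ^ m := by
  have h1 : (∑ x, cs (G x)) ^ 2 + (∑ x, sn (G x)) ^ 2 = ∑ y, ∑ x, cs (G x - G y) := by
    rw [sq, sq, Finset.sum_mul_sum, Finset.sum_mul_sum, Finset.sum_comm (f := fun y x => cs (G x - G y))]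
    simp only [← Finset.sum_add_distrib, cs_sub]
  have h2 : ∀ y, ∑ x, cs (G x - G y) = ∑ z, cs (G z) * ep (B y z) := by
    intro y
    rw [← Equiv.sum_comp (Equiv.addLeft y)]
    refine Finset.sum_congr rfl fun z _ => ?_
    simp only [Equiv.coe_addLeft]
    rw [hG, ← cs_db]
    congr 1; ring
  rw [h1]
  simp only [h2]
  rw [Finset.sum_comm]
  simp only [← Finset.mul_sum]
  rw [Finset.sum_eq_single (0 : V m)]
  · have : ep 0 = 1 := by decide
    simp [hG0, hB0, cs_zero, this, ZMod.card]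
  · intro z _ hz
    obtain ⟨y0, hy0⟩ := hnd z hz
    rw [charsum (fun y => B y z) (fun x y => hB x y z) y0 hy0, mul_zero]
  · simp

lemma twosq (k : ℕ) : ∀ u v : ℤ, u ^ 2 + v ^ 2 = 2 ^ (2 * k + 1) → u = 2 ^ k ∨ u = -2 ^ k := by
  induction k with
  | zero =>
    intro u v h
    simp only [mul_zero, zero_add, pow_one, pow_zero] at h ⊢
    have h1 : u ≤ 1 := by nlinarith [sq_nonneg v]
    have h2 : -1 ≤ u := by nlinarith [sq_nonneg v]
    have h3 : v ≤ 1 := by nlinarith [sq_nonneg u]
    have h4 : -1 ≤ v := by nlinarith [sq_nonneg u]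
    interval_cases u <;> interval_cases v <;> simp_all
  | succ k ih =>
    intro u v h
    have e : (2 : ℤ) ^ (2 * (k + 1) + 1) = 4 * 2 ^ (2 * k + 1) := by ring
    rw [e] at h
    rcases Int.even_or_odd' u with ⟨a, rfl | rfl⟩ <;> rcases Int.even_or_odd' v with ⟨b, rfl | rfl⟩
    · have : a ^ 2 + b ^ 2 = 2 ^ (2 * k + 1) := by nlinarith
      rcases ih a b this with h1 | h1
      · left; rw [h1]; ring
      · right; rw [h1]; ring
    · exfalso
      have : 4 * (a ^ 2 + b ^ 2 + b - 2 ^ (2 * k + 1)) = -1 := by nlinarith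
      omega
    · exfalso
      have : 4 * (a ^ 2 + b ^ 2 + a - 2 ^ (2 * k + 1)) = -1 := by nlinarith
      omega
    · exfalso
      have : 4 * (a ^ 2 + b ^ 2 + a + b - 2 ^ (2 * k + 1)) = -2 := by nlinarith
      omega

lemma family_aux (m : ℕ) (K : Type) [Field K] [Algebra (ZMod 2) K] [Finite K]
    (e : Module.Basis (Fin m) (ZMod 2) K) : ∃ P : V m → Fin m → Fin m → ZMod 2,
    (∀ a i j, P a i j = P a j i) ∧
    ∀ a a', a ≠ a' → ∀ z, z ≠ 0 → ∃ y, bl (P a) y z - bl (P a') y z ≠ 0 := by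
  haveI : Fact (Nat.Prime 2) := ⟨Nat.prime_two⟩
  obtain ⟨E, hEd⟩ : ∃ E : V m → K, ∀ x, E x = ∑ i, x i • e i := ⟨_, fun _ => rfl⟩
  have hE : ∀ x, E x = e.equivFun.symm x := fun x => by
    rw [hEd]; exact (e.equivFun_symm_apply x).symm
  have hEinj : Function.Injective E := by
    intro x y h
    rw [hE, hE] at h
    exact e.equivFun.symm.injective h
  have hE0 : E 0 = 0 := by simp [hEd]
  refine ⟨fun a i j => Algebra.trace (ZMod 2) K (E a * e i * e j), fun a i j => by
    simp only [mul_right_comm], ?_⟩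
  have key : ∀ a y z, bl (fun i j => Algebra.trace (ZMod 2) K (E a * e i * e j)) y z =
      Algebra.trace (ZMod 2) K (E a * E y * E z) := by
    intro a y z
    have : E a * E y * E z = ∑ i, ∑ j, (y i * z j) • (E a * e i * e j) := by
      rw [mul_assoc, hEd y, hEd z, Finset.sum_mul_sum, Finset.mul_sum]
      refine Finset.sum_congr rfl fun i _ => ?_
      rw [Finset.mul_sum]
      refine Finset.sum_congr rfl fun j _ => ?_
      simp only [Algebra.smul_def, map_mul]
      ring
    rw [this]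
    unfold bl
    simp only [map_sum, map_smul, smul_eq_mul]
    refine Finset.sum_congr rfl fun i _ => Finset.sum_congr rfl fun j _ => ?_
    ring
  intro a a' haa z hz
  have h1 : (E a - E a') * E z ≠ 0 := by
    refine mul_ne_zero (sub_ne_zero.mpr fun h => haa (hEinj h)) fun h => hz (hEinj (h.trans hE0.symm))
  by_contra hc
  push Not at hc
  apply h1
  have hnd := (traceForm_nondegenerate (ZMod 2) K).1
  apply hnd
  intro w
  have hw : E (e.equivFun w) = w := by rw [hE]; simp
  have := hc (e.equivFun w)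
  rw [key, key, hw, ← map_sub] at this
  rw [Algebra.traceForm_apply, ← this]
  congr 1; ring

lemma family (m : ℕ) (hm : m ≠ 0) : ∃ P : V m → Fin m → Fin m → ZMod 2,
    (∀ a i j, P a i j = P a j i) ∧
    ∀ a a', a ≠ a' → ∀ z, z ≠ 0 → ∃ y, bl (P a) y z - bl (P a') y z ≠ 0 := by
  haveI : Fact (Nat.Prime 2) := ⟨Nat.prime_two⟩
  exact family_aux m (GaloisField 2 m)
    (Module.finBasisOfFinrankEq (ZMod 2) (GaloisField 2 m) (GaloisField.finrank 2 hm))

def dt (b x : V m) : ZMod 2 := ∑ i, b i * x i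

lemma dt_add (b x y : V m) : dt b (x + y) = dt b x + dt b y := by
  simp [dt, mul_add, Finset.sum_add_distrib]

lemma gram (k : ℕ) : ∃ g : V (2 * k + 1) × V (2 * k + 1) →
      (V (2 * k + 1) ⊕ V (2 * k + 1) ⊕ V (2 * k + 1)) → ℝ,
    (∀ p, ∑ j, g p j * g p j = 2 * (2 ^ k) ^ 2 + 2 ^ k) ∧
    ∀ p q, p ≠ q → (∑ j, g p j * g q j = 2 ^ k ∨ ∑ j, g p j * g q j = -2 ^ k) := by
  obtain ⟨P, hs, hP⟩ := family (2 * k + 1) (by omega)
  obtain ⟨G, hG⟩ : ∃ G : V (2 * k + 1) × V (2 * k + 1) → V (2 * k + 1) → ZMod 4,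
      ∀ p x, G p x = qf (P p.1) x + db (dt p.2 x) := ⟨_, fun _ _ => rfl⟩
  have hsq : Real.sqrt (2 ^ k) * Real.sqrt (2 ^ k) = 2 ^ k := Real.mul_self_sqrt (by positivity)
  obtain ⟨g, hg⟩ : ∃ g : V (2 * k + 1) × V (2 * k + 1) →
      (V (2 * k + 1) ⊕ V (2 * k + 1) ⊕ V (2 * k + 1)) → ℝ,
      ∀ p, g p = Sum.elim (fun x => (cs (G p x) : ℝ)) (Sum.elim (fun x => (sn (G p x) : ℝ))
        (fun a => if a = p.1 then Real.sqrt (2 ^ k) else 0)) := ⟨_, fun _ => rfl⟩
  have hin : ∀ p q, ∑ j, g p j * g q j =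
      ((∑ x, cs (G p x - G q x) : ℤ) : ℝ) + if p.1 = q.1 then (2 : ℝ) ^ k else 0 := by
    intro p q
    rw [hg, hg, Fintype.sum_sum_type, Fintype.sum_sum_type, ← add_assoc]
    simp only [Sum.elim_inl, Sum.elim_inr]
    congr 1
    · rw [← Finset.sum_add_distrib]
      push_cast
      refine Finset.sum_congr rfl fun x _ => ?_
      rw [← cs_sub]; push_cast; ring
    · rw [Finset.sum_eq_single p.1]
      · by_cases h : p.1 = q.1
        · simp [h, hsq]
        · simp [h]
      · intro a _ ha; simp [ha]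
      · simp
  refine ⟨g, fun p => ?_, fun p q hpq => ?_⟩
  · rw [hin]
    simp only [sub_self, cs_zero, Finset.sum_const, Finset.card_univ, cardV, if_true,
      nsmul_eq_mul, mul_one]
    push_cast
    ring
  · rw [hin]
    by_cases h : p.1 = q.1
    · left
      have h2 : p.2 ≠ q.2 := fun h2 => hpq (Prod.ext h h2)
      obtain ⟨i, hi⟩ := Function.ne_iff.mp h2
      have : ∑ x, cs (G p x - G q x) = 0 := by
        have e1 : ∀ x, cs (G p x - G q x) = ep (dt p.2 x - dt q.2 x) := by
          intro x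
          rw [hG, hG, h, add_sub_add_left_eq_sub, ← db_sub, ← zero_add (db _), cs_db, cs_zero, one_mul]
        simp only [e1]
        refine charsum (fun x => dt p.2 x - dt q.2 x) (fun x y => by rw [dt_add, dt_add]; ring)
          (Pi.single i 1) ?_
        simpa [dt, Pi.single_apply, sub_eq_zero] using hi
      rw [this, if_pos h]; simp
    · have hga := gauss (fun x => G p x - G q x) (fun y z => bl (P p.1) y z - bl (P q.1) y z)
        (fun y z => by
          simp only [hG, qf_add _ (hs _), dt_add, db_add, db_sub]; ring)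
        (by simp [hG, qf_zero, dt])
        (fun x y z => by rw [bl_add, bl_add]; ring)
        (fun y => by rw [bl_zero, bl_zero, sub_zero])
        (hP _ _ h)
      rw [if_neg h, add_zero]
      rcases twosq k _ _ hga with h1 | h1
      · left; rw [h1]; push_cast; ring
      · right; rw [h1]; push_cast; ring

lemma pts {ι κ : Type} [Fintype ι] [Fintype κ] (g : κ → ι → ℝ) (h : ℝ) (hh : 0 < h)
    (h1 : ∀ p, ∑ j, g p j * g p j = 2 * h ^ 2 + h)
    (h2 : ∀ p q, p ≠ q → (∑ j, g p j * g q j = h ∨ ∑ j, g p j * g q j = -h)) :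
    ∃ S : Finset (EuclideanSpace ℝ (Fin (Fintype.card ι))), S.card = Fintype.card κ ∧
      (∀ x ∈ S, ∀ y ∈ S, x ≠ y → 1 ≤ dist x y) ∧
      ∀ T ⊆ S, (∀ x ∈ T, ∀ y ∈ T, x ≠ y → 1 < dist x y) → (T.card : ℝ) ≤ 2 * h + 2 := by
  classical
  let e := Fintype.equivFin ι
  obtain ⟨w, hw⟩ : ∃ w : κ → EuclideanSpace ℝ (Fin (Fintype.card ι)),
      ∀ p j, w p j = g p (e.symm j) / (2 * h) :=
    ⟨fun p => WithLp.toLp 2 (fun j => g p (e.symm j) / (2 * h)), fun _ _ => rfl⟩
  have hd : ∀ p q, dist (w p) (w q) ^ 2 * (4 * h ^ 2) =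
      2 * (2 * h ^ 2 + h) - 2 * ∑ j, g p j * g q j := by
    intro p q
    rw [EuclideanSpace.dist_eq, Real.sq_sqrt (Finset.sum_nonneg fun _ _ => sq_nonneg _)]
    simp only [hw, Real.dist_eq, sq_abs]
    rw [Equiv.sum_comp e.symm (fun j => (g p j / (2 * h) - g q j / (2 * h)) ^ 2), Finset.sum_mul]
    have : 2 * (2 * h ^ 2 + h) - 2 * ∑ j, g p j * g q j =
        ∑ j, g p j * g p j + ∑ j, g q j * g q j - 2 * ∑ j, g p j * g q j := by
      rw [h1, h1]; ring
    rw [this, Finset.mul_sum, ← Finset.sum_add_distrib, ← Finset.sum_sub_distrib]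
    refine Finset.sum_congr rfl fun j _ => ?_
    field_simp
    ring
  have hh2 : 0 < 4 * h ^ 2 := by positivity
  have hge : ∀ p q, p ≠ q → 1 ≤ dist (w p) (w q) := by
    intro p q hpq
    have h3 := hd p q
    have h4 : 1 ≤ dist (w p) (w q) ^ 2 := by
      rcases h2 p q hpq with h5 | h5 <;> rw [h5] at h3 <;> nlinarith
    by_contra hc
    push Not at hc
    nlinarith [dist_nonneg (x := w p) (y := w q)]
  have hinj : Function.Injective w := by
    intro p q hpq
    by_contra hc
    have := hge p q hc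
    rw [hpq, dist_self] at this
    linarith
  refine ⟨Finset.univ.image w, by rw [Finset.card_image_of_injective _ hinj, Finset.card_univ], ?_, ?_⟩
  · intro x hx y hy hxy
    obtain ⟨p, -, rfl⟩ := Finset.mem_image.mp hx
    obtain ⟨q, -, rfl⟩ := Finset.mem_image.mp hy
    exact hge p q fun h => hxy (by rw [h])
  · intro T hT hsep
    obtain ⟨U, -, rfl⟩ := Finset.subset_image_iff.mp hT
    rw [Finset.card_image_of_injective _ hinj]
    have hneg : ∀ p ∈ U, ∀ q ∈ U, p ≠ q → ∑ j, g p j * g q j = -h := by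
      intro p hp q hq hpq
      rcases h2 p q hpq with h5 | h5
      · exfalso
        have h6 := hsep (w p) (Finset.mem_image_of_mem _ hp) (w q) (Finset.mem_image_of_mem _ hq)
          (fun h => hpq (hinj h))
        have h3 := hd p q
        rw [h5] at h3
        have : 1 < dist (w p) (w q) ^ 2 := by nlinarith
        nlinarith
      · exact h5
    have hsum : ∑ j, (∑ p ∈ U, g p j) ^ 2 = ∑ p ∈ U, ∑ q ∈ U, ∑ j, g p j * g q j := by
      simp only [sq, Finset.sum_mul_sum]
      rw [Finset.sum_comm]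
      refine Finset.sum_congr rfl fun p _ => ?_
      rw [Finset.sum_comm]
    have hrow : ∀ p ∈ U, ∑ q ∈ U, ∑ j, g p j * g q j = 2 * h ^ 2 + 2 * h - U.card * h := by
      intro p hp
      have : ∀ q ∈ U, ∑ j, g p j * g q j = -h + if p = q then 2 * h ^ 2 + 2 * h else 0 := by
        intro q hq
        by_cases hpq : p = q
        · subst hpq; rw [h1, if_pos rfl]; ring
        · rw [hneg p hp q hq hpq, if_neg hpq, add_zero]
      rw [Finset.sum_congr rfl this, Finset.sum_add_distrib, Finset.sum_ite_eq, if_pos hp]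
      simp only [Finset.sum_const, nsmul_eq_mul]
      ring
    rw [Finset.sum_congr rfl hrow, Finset.sum_const, nsmul_eq_mul] at hsum
    have h0 : 0 ≤ ∑ j, (∑ p ∈ U, g p j) ^ 2 := Finset.sum_nonneg fun _ _ => sq_nonneg _
    rw [hsum] at h0
    by_contra hc
    push Not at hc
    have h7 : 0 < (U.card : ℝ) := by linarith
    have h8 : 2 * h ^ 2 + 2 * h - U.card * h < 0 := by nlinarith
    nlinarith

end Pool.Agent.H.MP_dec67b_co
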